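import Mathlib

set_option autoImplicit false
set_option linter.unusedSectionVars false

namespace Pool.Agent.Lib.MP17a4eb

open Metric

/-- Evaluation of a central element at a maximal left ideal of a complex Banach algebra. -/
theorem exists_sub_mem_maximal {B : Type*} [NormedRing B] [NormedAlgebra ℂ B] [CompleteSpace B]
    (Z : B) (hZ : ∀ x : B, Z * x = x * Z) (r : ℝ) (hr : 0 ≤ r) (hZr : ∀ x : B, ‖Z * x‖ ≤ r * ‖x‖)
    (M : Ideal B) (hM : M.IsMaximal) :
    ∃ l : ℂ, ‖l‖ ≤ r ∧ Z - algebraMap ℂ B l ∈ M := by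
  classical
  have hcl : IsClosed (M : Set B) := by
    have h := Ideal.IsMaximal.closure_eq hM
    rw [← h]
    exact isClosed_closure
  have hnt : Nontrivial (B ⧸ M) := Submodule.Quotient.nontrivial_iff.mpr hM.ne_top
  have hsimp : IsSimpleModule B (B ⧸ M) := isSimpleModule_iff_isCoatom.mpr hM.out
  -- multiplication by `c` as a linear map on the quotient
  let mulL : B → ((B ⧸ M) →ₗ[ℂ] (B ⧸ M)) := fun c =>
    { toFun := fun v => c • v
      map_add' := fun v w => smul_add _ _ _
      map_smul' := fun k v => by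
        simp only [RingHom.id_apply]
        rw [smul_comm] }
  have hbound : ∀ v : B ⧸ M, ‖Z • v‖ ≤ r * ‖v‖ := by
    intro v
    refine le_of_forall_pos_le_add ?_
    intro ε hε
    obtain ⟨x, hx, hxn⟩ := Submodule.Quotient.norm_mk_lt (S := M) v (ε := ε / (r + 1)) (by positivity)
    have h1 : Z • v = Submodule.Quotient.mk (Z * x) := by
      rw [← hx]; rfl
    rw [h1]
    calc ‖(Submodule.Quotient.mk (Z * x) : B ⧸ M)‖ ≤ ‖Z * x‖ := Submodule.Quotient.norm_mk_le M _
      _ ≤ r * ‖x‖ := hZr x
      _ ≤ r * (‖v‖ + ε / (r + 1)) := by gcongr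
      _ ≤ r * ‖v‖ + ε := by
        have : r * (ε / (r + 1)) ≤ ε := by
          rw [mul_div_assoc', div_le_iff₀ (by positivity)]
          nlinarith
        linarith [mul_add r ‖v‖ (ε / (r + 1))]
  let T : (B ⧸ M) →L[ℂ] (B ⧸ M) := (mulL Z).mkContinuous r hbound
  obtain ⟨l, hl⟩ := spectrum.nonempty T
  refine ⟨l, ?_, ?_⟩
  · refine (spectrum.norm_le_norm_of_mem hl).trans ?_
    exact (mulL Z).mkContinuous_norm_le hr hbound
  · -- Schur's lemma
    let c : B := Z - algebraMap ℂ B l
    have hc : ∀ x : B, c * x = x * c := by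
      intro x
      simp only [c, sub_mul, mul_sub, hZ x, Algebra.commutes l x]
    let S : (B ⧸ M) →ₗ[B] (B ⧸ M) :=
      { toFun := fun v => c • v
        map_add' := fun v w => smul_add _ _ _
        map_smul' := fun k v => by
          simp only [RingHom.id_apply]
          rw [← mul_smul, ← mul_smul, hc k] }
    have hTS : ∀ v : B ⧸ M, (T - algebraMap ℂ ((B ⧸ M) →L[ℂ] (B ⧸ M)) l) v = S v := by
      intro v
      have e1 : T v = Z • v := rfl
      have e2 : (algebraMap ℂ ((B ⧸ M) →L[ℂ] (B ⧸ M)) l) v = l • v := rfl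
      have e3 : S v = c • v := rfl
      rw [_root_.sub_apply, e1, e2, e3, sub_smul, algebraMap_smul]
    rcases LinearMap.bijective_or_eq_zero S with hb | h0
    · exfalso
      apply hl
      let T' : (B ⧸ M) →L[ℂ] (B ⧸ M) := T - algebraMap ℂ ((B ⧸ M) →L[ℂ] (B ⧸ M)) l
      have hT'b : Function.Bijective T' := by
        have : (T' : (B ⧸ M) → (B ⧸ M)) = S := funext hTS
        rw [this]; exact hb
      have hu : IsUnit T' := by
        let E := ContinuousLinearEquiv.ofBijective T'
          (LinearMap.ker_eq_bot.mpr hT'b.1) (LinearMap.range_eq_top.mpr hT'b.2)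
        have : T' = ((ContinuousLinearEquiv.toUnit E : ((B ⧸ M) →L[ℂ] (B ⧸ M))ˣ) :
            (B ⧸ M) →L[ℂ] (B ⧸ M)) := by
          ext v; rfl
        rw [this]
        exact Units.isUnit _
      have h2 : algebraMap ℂ ((B ⧸ M) →L[ℂ] (B ⧸ M)) l - T = - T' := by
        simp [T']
      rw [spectrum.mem_resolventSet_iff, h2]
      exact hu.neg
    · have h1 : S (Submodule.Quotient.mk (1 : B)) = 0 := by rw [h0]; rfl
      have h2 : S (Submodule.Quotient.mk (1 : B)) = Submodule.Quotient.mk (c * 1) := rfl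
      rw [h2, mul_one] at h1
      exact (Submodule.Quotient.mk_eq_zero M).mp h1

/-- A left-invertibility criterion (Allan): if `a - l` is left invertible for every scalar `l` with
`‖l‖ ≤ r` then `a - Z` is left invertible. -/
theorem exists_left_inverse {B : Type*} [NormedRing B] [NormedAlgebra ℂ B] [CompleteSpace B]
    (Z : B) (hZ : ∀ x : B, Z * x = x * Z) (r : ℝ) (hr : 0 ≤ r) (hZr : ∀ x : B, ‖Z * x‖ ≤ r * ‖x‖)
    (a : B) (ha : ∀ l : ℂ, ‖l‖ ≤ r → ∃ b : B, b * (a - algebraMap ℂ B l) = 1) :
    ∃ g : B, g * (a - Z) = 1 := by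
  by_contra hcon
  have hI : Ideal.span {a - Z} ≠ ⊤ := by
    intro htop
    apply hcon
    have h1 : (1 : B) ∈ Ideal.span {a - Z} := by rw [htop]; trivial
    obtain ⟨g, hg⟩ := Ideal.mem_span_singleton'.mp h1
    exact ⟨g, hg⟩
  obtain ⟨M, hM, hle⟩ := Ideal.exists_le_maximal _ hI
  obtain ⟨l, hl, hlM⟩ := exists_sub_mem_maximal Z hZ r hr hZr M hM
  have h1 : a - Z ∈ M := hle (Ideal.mem_span_singleton_self _)
  have h2 : a - algebraMap ℂ B l ∈ M := by
    have := M.add_mem h1 hlM
    simpa using this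
  obtain ⟨b, hb⟩ := ha l hl
  have h3 : (1 : B) ∈ M := by
    rw [← hb]; exact M.mul_mem_left b h2
  exact hM.ne_top ((Ideal.eq_top_iff_one M).mpr h3)

/-- Idempotents in the same path component are similar. -/
theorem idempotent_path {B : Type*} [NormedRing B] [CompleteSpace B]
    (p : ℝ → B) (hp : ContinuousOn p (Set.Icc 0 1)) (hid : ∀ t ∈ Set.Icc (0:ℝ) 1, p t * p t = p t) :
    ∃ u : Bˣ, p 1 * u = u * p 0 := by
  let P : ℝ → ℝ → Prop := fun s t => ∃ u : Bˣ, p t * u = u * p s
  have key : P 0 1 := by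
    refine IsPreconnected.induction₂ (s := Set.Icc (0:ℝ) 1) isPreconnected_Icc P ?_ ?_ ?_
      (by simp) (by simp)
    · intro s hs
      have hcont : Filter.Tendsto (fun t => (2 * p t - 1) * (p s - p t)) (nhdsWithin s (Set.Icc 0 1))
          (nhds ((2 * p s - 1) * (p s - p s))) := by
        have h := hp s hs
        exact (((h.const_mul 2).sub tendsto_const_nhds).mul (tendsto_const_nhds.sub h))
      rw [sub_self, mul_zero] at hcont
      have hev := (hcont.norm).eventually (gt_mem_nhds (show ‖(0:B)‖ < 1 by simp))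
      filter_upwards [hev, self_mem_nhdsWithin] with t ht htI
      -- w = p t * p s + (1 - p t) * (1 - p s)
      let x : B := - ((2 * p t - 1) * (p s - p t))
      have hx : ‖x‖ < 1 := by simpa [x] using ht
      refine ⟨Units.oneSub x hx, ?_⟩
      have hw : ((Units.oneSub x hx : Bˣ) : B) = p t * p s + (1 - p t) * (1 - p s) := by
        rw [Units.val_oneSub]
        have hss := hid t htI
        simp only [x, sub_neg_eq_add, sub_mul, mul_sub, one_mul, mul_one, two_mul, add_mul, hss]
        abel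
      rw [hw]
      have h1 := hid t htI
      have h2 := hid s hs
      calc p t * (p t * p s + (1 - p t) * (1 - p s))
          = (p t * p t) * p s + (p t - p t * p t) * (1 - p s) := by noncomm_ring
        _ = p t * p s := by rw [h1]; noncomm_ring
        _ = p t * (p s * p s) + (1 - p t) * (p s - p s * p s) := by rw [h2]; noncomm_ring
        _ = (p t * p s + (1 - p t) * (1 - p s)) * p s := by noncomm_ring
    · rintro s t w - - - ⟨u, hu⟩ ⟨v, hv⟩
      refine ⟨v * u, ?_⟩
      rw [Units.val_mul, ← mul_assoc, hv, mul_assoc, hu, mul_assoc]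
    · rintro s t - - ⟨u, hu⟩
      refine ⟨u⁻¹, ?_⟩
      rw [Units.mul_inv_eq_iff_eq_mul, mul_assoc, hu, Units.inv_mul_cancel_left] 
  exact key


section disc

variable (r : ℝ) (A : Type*) [NormedRing A] [NormedAlgebra ℂ A] [CompleteSpace A]

/-- Constant functions on the closed disc. -/
noncomputable def cst (a : A) : C(closedBall (0:ℂ) r, A) := ContinuousMap.const _ a

/-- The coordinate function on the closed disc. -/
noncomputable def zz : C(closedBall (0:ℂ) r, A) :=
  ⟨fun z => algebraMap ℂ A z, (algebraMapCLM ℂ A).continuous.comp continuous_subtype_val⟩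

/-- `A`-valued polynomials. -/
noncomputable def polyAlg : Subalgebra ℂ C(closedBall (0:ℂ) r, A) :=
  Algebra.adjoin ℂ (Set.range (cst r A) ∪ {zz r A})

/-- Uniform limits of `A`-valued polynomials. -/
noncomputable def discAlg : Subalgebra ℂ C(closedBall (0:ℂ) r, A) :=
  (polyAlg r A).topologicalClosure

variable {r A}

@[simp] theorem cst_apply (a : A) (z : closedBall (0:ℂ) r) : cst r A a z = a := rfl

@[simp] theorem zz_apply (z : closedBall (0:ℂ) r) : zz r A z = algebraMap ℂ A z := rfl

theorem cst_mem_poly (a : A) : cst r A a ∈ polyAlg r A :=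
  Algebra.subset_adjoin (Or.inl ⟨a, rfl⟩)

theorem zz_mem_poly : zz r A ∈ polyAlg r A :=
  Algebra.subset_adjoin (Or.inr rfl)

theorem poly_le_disc : polyAlg r A ≤ discAlg r A := Subalgebra.le_topologicalClosure _

theorem isClosed_discAlg : IsClosed (discAlg r A : Set C(closedBall (0:ℂ) r, A)) :=
  Subalgebra.isClosed_topologicalClosure _

instance : CompleteSpace (discAlg r A) := isClosed_discAlg.completeSpace_coe

/-- Evaluating an `A`-valued polynomial at `a` on the left. -/
theorem poly_eval (a : A) {P : C(closedBall (0:ℂ) r, A)} (hP : P ∈ polyAlg r A) :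
    ∀ x : A, ∃ J : A, ∃ Q : C(closedBall (0:ℂ) r, A),
      cst r A J - cst r A x * P = (cst r A a - zz r A) * Q := by
  induction hP using Algebra.adjoin_induction with
  | mem P hP =>
    intro x
    rcases hP with ⟨c, rfl⟩ | hP
    · refine ⟨x * c, 0, ?_⟩
      ext z; simp
    · rw [Set.mem_singleton_iff] at hP
      subst hP
      refine ⟨a * x, cst r A x, ?_⟩
      ext z
      simp only [ContinuousMap.sub_apply, ContinuousMap.mul_apply, cst_apply, zz_apply, sub_mul]
      rw [Algebra.commutes]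
  | algebraMap k =>
    intro x
    refine ⟨x * algebraMap ℂ A k, 0, ?_⟩
    ext z
    simp only [ContinuousMap.sub_apply, ContinuousMap.mul_apply, cst_apply, mul_zero,
      ContinuousMap.zero_apply]
    exact sub_self _
  | add P₁ P₂ h₁ h₂ ih₁ ih₂ =>
    intro x
    obtain ⟨J₁, Q₁, e₁⟩ := ih₁ x
    obtain ⟨J₂, Q₂, e₂⟩ := ih₂ x
    refine ⟨J₁ + J₂, Q₁ + Q₂, ?_⟩
    rw [mul_add, mul_add, ← e₁, ← e₂]
    ext z; simp; abel
  | mul P₁ P₂ h₁ h₂ ih₁ ih₂ =>
    intro x
    obtain ⟨J₁, Q₁, e₁⟩ := ih₁ x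
    obtain ⟨J₂, Q₂, e₂⟩ := ih₂ J₁
    refine ⟨J₂, Q₂ + Q₁ * P₂, ?_⟩
    have h3 : (cst r A a - zz r A) * (Q₁ * P₂) = (cst r A J₁ - cst r A x * P₁) * P₂ := by
      rw [e₁, mul_assoc]
    rw [mul_add, h3, ← e₂]
    noncomm_ring

/-- Dilation of the disc by the projection of `t` to `[0,1]`. -/
noncomputable def dil (r : ℝ) (t : ℝ) : C(closedBall (0:ℂ) r, closedBall (0:ℂ) r) :=
  ⟨fun z => ⟨((Set.projIcc (0:ℝ) 1 zero_le_one t : ℝ) : ℂ) * z, by
    have h1 := (Set.projIcc (0:ℝ) 1 zero_le_one t).2
    have h2 := z.2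
    rw [mem_closedBall_zero_iff] at h2 ⊢
    rw [norm_mul, Complex.norm_real, Real.norm_of_nonneg h1.1]
    nlinarith [norm_nonneg (z : ℂ), h1.1, h1.2]⟩,
   by fun_prop⟩

theorem comp_mem (t : ℝ) {f : C(closedBall (0:ℂ) r, A)} (hf : f ∈ discAlg r A) :
    f.comp (dil r t) ∈ discAlg r A := by
  let Φ : C(closedBall (0:ℂ) r, A) →ₐ[ℂ] C(closedBall (0:ℂ) r, A) :=
    ContinuousMap.compRightAlgHom ℂ A (dil r t)
  have hΦ : Continuous Φ := ContinuousMap.continuous_precomp (dil r t)
  have hle : discAlg r A ≤ (discAlg r A).comap Φ := by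
    refine Subalgebra.topologicalClosure_minimal (s := polyAlg r A) ?_ ?_
    · refine Algebra.adjoin_le ?_
      rintro f (⟨c, rfl⟩ | hf)
      · have : Φ (cst r A c) = cst r A c := by ext z; rfl
        show Φ (cst r A c) ∈ discAlg r A
        rw [this]
        exact poly_le_disc (cst_mem_poly c)
      · rw [Set.mem_singleton_iff] at hf
        subst hf
        have : Φ (zz r A) = cst r A (algebraMap ℂ A ((Set.projIcc (0:ℝ) 1 zero_le_one t : ℝ) : ℂ))
            * zz r A := by
          ext z
          show algebraMap ℂ A (((Set.projIcc (0:ℝ) 1 zero_le_one t : ℝ) : ℂ) * z) = _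
          rw [map_mul]; rfl
        show Φ (zz r A) ∈ discAlg r A
        rw [this]
        exact poly_le_disc (mul_mem (cst_mem_poly _) zz_mem_poly)
    · exact isClosed_discAlg.preimage hΦ
  exact hle hf

theorem continuous_dil (f : C(closedBall (0:ℂ) r, A)) :
    Continuous (fun t : ℝ => f.comp (dil r t)) := by
  refine ContinuousMap.continuous_of_continuous_uncurry _ ?_
  show Continuous (fun q : ℝ × closedBall (0:ℂ) r => f (dil r q.1 q.2))
  refine f.continuous.comp ?_
  refine Continuous.subtype_mk ?_ _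
  show Continuous (fun q : ℝ × closedBall (0:ℂ) r =>
    ((Set.projIcc (0:ℝ) 1 zero_le_one q.1 : ℝ) : ℂ) * (q.2 : ℂ))
  have h := continuous_projIcc (a := (0:ℝ)) (b := 1) (h := zero_le_one)
  fun_prop


/-- Main construction: a left inverse `b` of `a` such that `1 - z b` is invertible for all
`‖z‖ ≤ r`. -/
theorem exists_good_left_inverse (hr : 0 ≤ r) (a : A)
    (ha : ∀ l : ℂ, ‖l‖ ≤ r → ∃ b : A, b * (a - algebraMap ℂ A l) = 1) :
    ∃ b : A, b * a = 1 ∧ ∀ z : ℂ, ‖z‖ ≤ r → IsUnit (1 - algebraMap ℂ A z * b) := by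
  classical
  -- Step 1: a left inverse in `discAlg`
  let Z : discAlg r A := ⟨zz r A, poly_le_disc zz_mem_poly⟩
  let a' : discAlg r A := ⟨cst r A a, poly_le_disc (cst_mem_poly a)⟩
  have hZc : ∀ x : discAlg r A, Z * x = x * Z := by
    intro x
    apply Subtype.ext
    ext z
    exact Algebra.commutes _ _
  have hZr : ∀ x : discAlg r A, ‖Z * x‖ ≤ r * ‖x‖ := by
    intro x
    show ‖zz r A * (x : C(closedBall (0:ℂ) r, A))‖ ≤ r * ‖(x : C(closedBall (0:ℂ) r, A))‖
    rw [ContinuousMap.norm_le _ (by positivity)]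
    intro z
    have h1 : (zz r A * (x : C(closedBall (0:ℂ) r, A))) z = (z : ℂ) • ((x : C(closedBall (0:ℂ) r, A)) z) := by
      rw [Algebra.smul_def]; rfl
    rw [h1, norm_smul]
    have h2 := z.2
    rw [mem_closedBall_zero_iff] at h2
    exact mul_le_mul h2 (ContinuousMap.norm_coe_le_norm _ z) (norm_nonneg _) hr
  obtain ⟨g, hg⟩ : ∃ g : discAlg r A, g * (a' - Z) = 1 := by
    refine exists_left_inverse Z hZc r hr hZr a' ?_
    intro l hl
    obtain ⟨b, hb⟩ := ha l hl
    refine ⟨⟨cst r A b, poly_le_disc (cst_mem_poly b)⟩, ?_⟩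
    apply Subtype.ext
    ext z
    exact hb
  -- Step 2: the idempotent
  let p0 : discAlg r A := 1 - (a' - Z) * g
  have hp0 : p0 * p0 = p0 := by
    have : (a' - Z) * g * ((a' - Z) * g) = (a' - Z) * g := by
      rw [mul_assoc, ← mul_assoc g, hg, one_mul]
    show (1 - (a' - Z) * g) * (1 - (a' - Z) * g) = 1 - (a' - Z) * g
    generalize (a' - Z) * g = q at this ⊢
    rw [mul_sub, mul_one, sub_mul, one_mul, this]; abel
  let p : ℝ → discAlg r A := fun t => ⟨(p0 : C(closedBall (0:ℂ) r, A)).comp (dil r t), comp_mem t p0.2⟩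
  have hpc : Continuous p := (continuous_dil _).subtype_mk _
  have hpid : ∀ t, p t * p t = p t := by
    intro t
    apply Subtype.ext
    ext z
    have := congrArg (fun f : discAlg r A => (f : C(closedBall (0:ℂ) r, A)) (dil r t z)) hp0
    exact this
  obtain ⟨u, hu⟩ := idempotent_path p hpc.continuousOn (fun t _ => hpid t)
  have h0mem : (0:ℂ) ∈ closedBall (0:ℂ) r := by simpa using hr
  let e : A := (p0 : C(closedBall (0:ℂ) r, A)) ⟨0, h0mem⟩
  have hp1 : p 1 = p0 := by
    apply Subtype.ext
    ext z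
    show (p0 : C(closedBall (0:ℂ) r, A)) (dil r 1 z) = (p0 : C(closedBall (0:ℂ) r, A)) z
    congr 1
    apply Subtype.ext
    show ((Set.projIcc (0:ℝ) 1 zero_le_one 1 : ℝ) : ℂ) * z = z
    rw [Set.projIcc_right]; simp
  have hpe : (p 0 : C(closedBall (0:ℂ) r, A)) = cst r A e := by
    ext z
    show (p0 : C(closedBall (0:ℂ) r, A)) (dil r 0 z) = (p0 : C(closedBall (0:ℂ) r, A)) ⟨0, h0mem⟩
    congr 1
    apply Subtype.ext
    show ((Set.projIcc (0:ℝ) 1 zero_le_one 0 : ℝ) : ℂ) * z = 0
    rw [Set.projIcc_left]; simp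
  rw [hp1] at hu
  -- pass to functions
  let U : C(closedBall (0:ℂ) r, A) := ((u : discAlg r A) : C(closedBall (0:ℂ) r, A))
  let V : C(closedBall (0:ℂ) r, A) := ((u⁻¹ : (discAlg r A)ˣ) : discAlg r A)
  let E : C(closedBall (0:ℂ) r, A) := cst r A e
  let pp : C(closedBall (0:ℂ) r, A) := (p0 : C(closedBall (0:ℂ) r, A))
  let G : C(closedBall (0:ℂ) r, A) := (g : C(closedBall (0:ℂ) r, A))
  let D : C(closedBall (0:ℂ) r, A) := cst r A a - zz r A
  have hUV : U * V = 1 := congrArg (fun f : discAlg r A => (f : C(closedBall (0:ℂ) r, A))) u.mul_inv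
  have hVU : V * U = 1 := congrArg (fun f : discAlg r A => (f : C(closedBall (0:ℂ) r, A))) u.inv_mul
  have hpU : pp * U = U * E := by
    have := congrArg (fun f : discAlg r A => (f : C(closedBall (0:ℂ) r, A))) hu
    simp only [MulMemClass.coe_mul, hpe] at this
    exact this
  have hVp : V * pp = E * V := by
    calc V * pp = V * pp * (U * V) := by rw [hUV, mul_one]
      _ = V * (pp * U) * V := by noncomm_ring
      _ = (V * U) * E * V := by rw [hpU]; noncomm_ring
      _ = E * V := by rw [hVU, one_mul]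
  have hGD : G * D = 1 := congrArg (fun f : discAlg r A => (f : C(closedBall (0:ℂ) r, A))) hg
  have hppdef : pp = 1 - D * G := rfl
  have hpp : pp * pp = pp := congrArg (fun f : discAlg r A => (f : C(closedBall (0:ℂ) r, A))) hp0
  have hpD : pp * D = 0 := by
    rw [hppdef, sub_mul, one_mul, mul_assoc, hGD, mul_one, sub_self]
  have hEE : E * E = E := by
    calc E * E = (V * U) * E * E := by rw [hVU, one_mul]
      _ = V * (pp * U) * E := by rw [hpU]; noncomm_ring
      _ = V * pp * (U * E) := by noncomm_ring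
      _ = V * (pp * pp) * U := by rw [← hpU]; noncomm_ring
      _ = V * pp * U := by rw [hpp]
      _ = E * (V * U) := by rw [hVp, mul_assoc]
      _ = E := by rw [hVU, mul_one]
  -- Step 3: approximate `U * E` by a polynomial
  have hUE : U * E ∈ discAlg r A :=
    mul_mem (u : discAlg r A).2 (poly_le_disc (cst_mem_poly e))
  let δ : ℝ := 1 / (‖E‖ * ‖V‖ * ‖E‖ + 1)
  have hδ : 0 < δ := by positivity
  obtain ⟨P, hP, hPd⟩ := Metric.mem_closure_iff.mp (show U * E ∈ closure (polyAlg r A : Set C(closedBall (0:ℂ) r, A)) from hUE) δ hδ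
  obtain ⟨J₀, Q, hJQ⟩ := poly_eval a hP 1
  have hJQ' : cst r A J₀ - P = D * Q := by
    have h1 : cst r A (1:A) = 1 := rfl
    rw [h1, one_mul] at hJQ
    exact hJQ
  let J : C(closedBall (0:ℂ) r, A) := cst r A J₀ * E
  have hJE : J * E = J := by simp only [J]; rw [mul_assoc, hEE]
  let T : C(closedBall (0:ℂ) r, A) := E * V * P * E
  let x : C(closedBall (0:ℂ) r, A) := E - T
  have hx : ‖x‖ < 1 := by
    have h1 : x = E * V * (U * E - P) * E := by
      have : E * V * (U * E) * E = E := by
        calc E * V * (U * E) * E = E * (V * U) * (E * E) := by noncomm_ring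
          _ = E := by rw [hVU, mul_one, hEE, hEE]
      simp only [x, T]
      rw [mul_sub, sub_mul, this]
    rw [h1]
    have h2 : ‖U * E - P‖ < δ := by rw [← dist_eq_norm]; exact hPd
    calc ‖E * V * (U * E - P) * E‖ ≤ ‖E‖ * ‖V‖ * ‖U * E - P‖ * ‖E‖ := by
          refine (norm_mul_le _ _).trans ?_
          gcongr
          refine (norm_mul_le _ _).trans ?_
          gcongr
          exact norm_mul_le _ _
      _ ≤ ‖E‖ * ‖V‖ * δ * ‖E‖ := by gcongr
      _ = (‖E‖ * ‖V‖ * ‖E‖) / (‖E‖ * ‖V‖ * ‖E‖ + 1) := by simp only [δ]; ring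
      _ < 1 := by
        rw [div_lt_one (by positivity)]
        linarith
  let w : C(closedBall (0:ℂ) r, A)ˣ := Units.oneSub x hx
  let W : C(closedBall (0:ℂ) r, A) := (w⁻¹ : C(closedBall (0:ℂ) r, A)ˣ)
  have hwv : (w : C(closedBall (0:ℂ) r, A)) = 1 - E + T := by
    simp only [w, Units.val_oneSub, x]; abel
  have hET : E * T = T := by
    simp only [T, ← mul_assoc, hEE]
  have hTE : T * E = T := by
    simp only [T, mul_assoc, hEE]
  have hEw : E * w = T := by
    rw [hwv, mul_add, mul_sub, mul_one, hEE, hET]; abel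
  have hwE : (w : C(closedBall (0:ℂ) r, A)) * E = T := by
    rw [hwv, add_mul, sub_mul, one_mul, hEE, hTE]; abel
  have hwW : (w : C(closedBall (0:ℂ) r, A)) * W = 1 := w.mul_inv
  have hWw : W * (w : C(closedBall (0:ℂ) r, A)) = 1 := w.inv_mul
  -- S = W * E
  let S : C(closedBall (0:ℂ) r, A) := W * E
  have hST : S * T = E := by
    calc S * T = W * (E * T) := by simp only [S]; rw [mul_assoc]
      _ = W * T := by rw [hET]
      _ = W * (w * E) := by rw [hwE]
      _ = E := by rw [← mul_assoc, hWw, one_mul]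
  have hEWE : E * W = W * E := by
    calc E * W = (W * w) * E * W := by rw [hWw, one_mul]
      _ = W * (w * E) * W := by noncomm_ring
      _ = W * (E * w) * W := by rw [hwE, hEw]
      _ = W * E * (w * W) := by noncomm_ring
      _ = W * E := by rw [hwW, mul_one]
  have hTS : T * S = E := by
    calc T * S = E * w * (W * E) := by rw [hEw]
      _ = E * (w * W) * E := by noncomm_ring
      _ = E := by rw [hwW, mul_one, hEE]
  have hSE : S * E = S := by simp only [S]; rw [mul_assoc, hEE]
  have hES : E * S = S := by simp only [S]; rw [← mul_assoc, hEWE, mul_assoc, hEE]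
  let s : C(closedBall (0:ℂ) r, A) := S * V
  have hsD : s * D = 0 := by
    calc s * D = (S * E) * V * D := by rw [hSE]
      _ = S * (E * V) * D := by noncomm_ring
      _ = S * (V * pp) * D := by rw [hVp]
      _ = S * V * (pp * D) := by noncomm_ring
      _ = 0 := by rw [hpD, mul_zero]
  have hEVJ : E * V * J = T := by
    have hJ : J = P * E + D * Q * E := by
      simp only [J]; rw [← hJQ']; noncomm_ring
    calc E * V * J = V * pp * (P * E + D * Q * E) := by rw [hJ, hVp]
      _ = (V * pp) * P * E + V * (pp * D) * Q * E := by noncomm_ring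
      _ = T := by rw [hpD, hVp]; simp [T]
  have hsJ : s * J = E := by
    calc s * J = (S * E) * V * J := by rw [hSE]
      _ = S * (E * V * J) := by noncomm_ring
      _ = E := by rw [hEVJ, hST]
  have hpJs : pp * J * s = pp := by
    calc pp * J * s = (U * V) * pp * J * s := by rw [hUV, one_mul]
      _ = U * (V * pp) * J * s := by noncomm_ring
      _ = U * (E * V * J) * S * V := by rw [hVp]; simp only [s]; noncomm_ring
      _ = U * (T * S) * V := by rw [hEVJ]; noncomm_ring
      _ = (U * E) * V := by rw [hTS]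
      _ = pp * (U * V) := by rw [← hpU, mul_assoc]
      _ = pp := by rw [hUV, mul_one]
  let H : C(closedBall (0:ℂ) r, A) := G * (1 - J * s)
  have hHD : H * D = 1 := by
    calc H * D = G * D - G * J * (s * D) := by simp only [H]; noncomm_ring
      _ = 1 := by rw [hsD, mul_zero, sub_zero, hGD]
  have hDH : D * H = 1 - J * s := by
    calc D * H = (D * G) * (1 - J * s) := by simp only [H]; noncomm_ring
      _ = (1 - pp) * (1 - J * s) := by rw [hppdef]; noncomm_ring
      _ = 1 - J * s - pp + pp * J * s := by noncomm_ring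
      _ = 1 - J * s := by rw [hpJs]; abel
  have hHJ : H * J = 0 := by
    calc H * J = G * (J - J * (s * J)) := by simp only [H]; noncomm_ring
      _ = 0 := by rw [hsJ, hJE, sub_self, mul_zero]
  -- Step 4: the left inverse
  let z0 : closedBall (0:ℂ) r := ⟨0, h0mem⟩
  let b : A := H z0
  let j : A := J₀ * e
  have hJz : ∀ z, J z = j := fun z => rfl
  have hDz : ∀ z : closedBall (0:ℂ) r, D z = a - algebraMap ℂ A z := fun z => rfl
  have hba : b * a = 1 := by
    have := DFunLike.congr_fun hHD z0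
    simp only [ContinuousMap.mul_apply, hDz, ContinuousMap.one_apply] at this
    have hz0 : ((z0 : closedBall (0:ℂ) r) : ℂ) = 0 := rfl
    rw [hz0, map_zero, sub_zero] at this
    exact this
  have hbj : b * j = 0 := by
    have := DFunLike.congr_fun hHJ z0
    simpa [hJz] using this
  have hab : a * b = 1 - j * s z0 := by
    have := DFunLike.congr_fun hDH z0
    simp only [ContinuousMap.mul_apply, hDz, ContinuousMap.one_apply, ContinuousMap.sub_apply,
      hJz] at this
    have hz0 : ((z0 : closedBall (0:ℂ) r) : ℂ) = 0 := rfl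
    rw [hz0, map_zero, sub_zero] at this
    exact this
  refine ⟨b, hba, ?_⟩
  intro z hz
  let z' : closedBall (0:ℂ) r := ⟨z, by rwa [mem_closedBall_zero_iff]⟩
  let c : A := algebraMap ℂ A z
  let h : A := H z'
  have hc : ∀ y : A, c * y = y * c := fun y => Algebra.commutes _ _
  have e1 : h * (a - c) = 1 := DFunLike.congr_fun hHD z'
  have e2 : (a - c) * h = 1 - j * s z' := DFunLike.congr_fun hDH z'
  have e3 : h * j = 0 := DFunLike.congr_fun hHJ z'
  have e4 : (1 - c * b) * h = b := by
    have : b * ((a - c) * h) = b := by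
      rw [e2, mul_sub, mul_one, ← mul_assoc, hbj, zero_mul, sub_zero]
    rw [← mul_assoc, mul_sub, hba, ← hc b] at this
    exact this
  have e5 : h * a = 1 + c * h := by
    have : h * a - h * c = 1 := by rw [← mul_sub]; exact e1
    rw [hc h, ← this]; abel
  have e6 : h * (1 - c * b) = b := by
    have h7 : h * (a * b) = h := by
      rw [hab, mul_sub, mul_one, ← mul_assoc, e3, zero_mul, sub_zero]
    have h8 : (1 + c * h) * b = h := by rw [← e5, mul_assoc, h7]
    have h9 : h * (1 - c * b) = h - c * h * b := by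
      rw [mul_sub, mul_one, ← mul_assoc, ← hc h]
    rw [h9]
    nth_rewrite 1 [← h8]
    rw [add_mul, one_mul]; abel
  refine ⟨⟨1 - c * b, 1 + c * h, ?_, ?_⟩, rfl⟩
  · calc (1 - c * b) * (1 + c * h) = 1 - c * b + (1 - c * b) * (c * h) := by noncomm_ring
      _ = 1 - c * b + c * ((1 - c * b) * h) := by
          congr 1
          rw [← mul_assoc, ← mul_assoc, hc (1 - c * b)]
      _ = 1 := by rw [e4]; abel
  · calc (1 + c * h) * (1 - c * b) = 1 - c * b + c * (h * (1 - c * b)) := by noncomm_ring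
      _ = 1 := by rw [e6]; abel

end disc

end Pool.Agent.Lib.MP17a4eb
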